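import Pool.Agent.helper90.IV.Spec

set_option autoImplicit false

open scoped BigOperators

namespace Pool.Agent.IV

open Pool.Agent.helper23.TH Pool.Agent.KS

noncomputable section

open Classical

/-- adjacency of live vertices used in `TE` -/
def TE_adj {I : Type} (T : Tr I) (t t' : I ⊕ T.R) : Prop :=
  (∃ i j, t = Sum.inl i ∧ t' = Sum.inl j ∧ T.nb i j) ∨
  (∃ r : T.R, t = Sum.inl r.1 ∧ t' = Sum.inr r) ∨
  (∃ r : T.R, t = Sum.inr r ∧ t' = Sum.inl r.1)

theorem TE_adj_hom {I : Type} (T : Tr I) {V : Type} (A : V → V → Prop) (hs : ∀ a b, A a b → A b a)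
    (x : I → V) (y : T.R → V) (h : T.hom A x y) (t t' : I ⊕ T.R) (ht : TE_adj T t t') :
    A (Sum.elim x y t) (Sum.elim x y t') := by
  rcases ht with ⟨i, j, rfl, rfl, hn | hn⟩ | ⟨r, rfl, rfl⟩ | ⟨r, rfl, rfl⟩
  · exact h.1 i j hn
  · exact hs _ _ (h.1 j i hn)
  · exact h.2 r
  · exact hs _ _ (h.2 r)

theorem TE_exists {I : Type} (T : Tr I) (gh : T.R → Option I)
    (Z : Finset (I ⊕ T.R)) (hne : Z.Nonempty) (hl : ∀ t ∈ Z, lvv T gh t)
    (hnot : ∃ t, lvv T gh t ∧ t ∉ Z) :
    ∃ t t', t ∈ Z ∧ t' ∉ Z ∧ lvv T gh t' ∧ TE_adj T t t' := by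
  by_contra hcon
  push Not at hcon
  have hcon' : ∀ t t', t ∈ Z → lvv T gh t' → TE_adj T t t' → t' ∈ Z := by
    intro t t' h1 h2 h3
    by_contra h4
    exact hcon t t' h1 h4 h2 h3
  have hpar : ∀ i j, T.par i = some j → ((Sum.inl i : I ⊕ T.R) ∈ Z ↔ (Sum.inl j : I ⊕ T.R) ∈ Z) := by
    intro i j hij
    constructor
    · intro h
      exact hcon' _ _ h trivial (Or.inl ⟨i, j, rfl, rfl, Or.inl hij⟩)
    · intro h
      exact hcon' _ _ h trivial (Or.inl ⟨j, i, rfl, rfl, Or.inr hij⟩)
  have hslot : ∀ r : T.R, gh r = none → ((Sum.inr r : I ⊕ T.R) ∈ Z ↔ (Sum.inl r.1 : I ⊕ T.R) ∈ Z) := by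
    intro r hr
    constructor
    · intro h
      exact hcon' _ _ h trivial (Or.inr (Or.inr ⟨r, rfl, rfl⟩))
    · intro h
      exact hcon' _ _ h hr (Or.inr (Or.inl ⟨r, rfl, rfl⟩))
  obtain ⟨o, ho1, ho2⟩ := T.root
  have hall : ∀ n i, T.rk i ≤ n → ((Sum.inl i : I ⊕ T.R) ∈ Z ↔ (Sum.inl o : I ⊕ T.R) ∈ Z) := by
    intro n
    induction n with
    | zero =>
      intro i hi
      cases hp : T.par i with
      | none => rw [ho2 i hp]
      | some j =>
        have := T.lt i j hp
        omega
    | succ n ih =>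
      intro i hi
      cases hp : T.par i with
      | none => rw [ho2 i hp]
      | some j =>
        have := T.lt i j hp
        rw [hpar i j hp]
        exact ih j (by omega)
  by_cases hZ : (Sum.inl o : I ⊕ T.R) ∈ Z
  · obtain ⟨t, ht1, ht2⟩ := hnot
    rcases t with i | r
    · exact ht2 ((hall _ i le_rfl).2 hZ)
    · exact ht2 ((hslot r ht1).2 ((hall _ r.1 le_rfl).2 hZ))
  · obtain ⟨t, ht⟩ := hne
    rcases t with i | r
    · exact hZ ((hall _ i le_rfl).1 ht)
    · exact hZ ((hall _ r.1 le_rfl).1 ((hslot r (hl _ ht)).1 ht))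

theorem TE_card {I : Type} [Fintype I] (T : Tr I) (gh : T.R → Option I) :
    (Finset.univ.filter fun t : I ⊕ T.R => lvv T gh t).card = Fintype.card I + nl T gh := by
  have h1 : (Finset.univ.filter fun t : I ⊕ T.R => lvv T gh t) =
      (Finset.univ : Finset I).disjSum (Finset.univ.filter fun r : T.R => gh r = none) := by
    ext t
    rcases t with i | r
    · simp [lvv]
    · simp [lvv]
  rw [h1, Finset.card_disjSum]
  rfl

theorem TE_main {I : Type} [Fintype I] (T : Tr I) {V : Type} [Fintype V] (A : V → V → Prop)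
    (Δ : ℝ) (gh : T.R → Option I) (hs : ∀ a b, A a b → A b a) (hΔ : 0 < Δ)
    (hdeg : ∀ v, (deg A v : ℝ) ≤ Δ) : ∀ (n : ℕ) (Z : Finset (I ⊕ T.R)) (g : I ⊕ T.R → V),
    Z.Nonempty → (∀ t ∈ Z, lvv T gh t) →
    (Finset.univ.filter fun t : I ⊕ T.R => lvv T gh t ∧ t ∉ Z).card ≤ n →
    (((Hm T A gh).filter fun f => ∀ t ∈ Z, Sum.elim f.1 f.2 t = g t).card : ℝ) * Δ ^ Z.card ≤
      Δ ^ (Fintype.card I + nl T gh) := by
  intro n
  induction n with
  | zero =>
    intro Z g hne hl hn
    have hfull : ∀ t, lvv T gh t → t ∈ Z := by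
      intro t ht
      by_contra hcon
      have h1 : t ∈ (Finset.univ.filter fun t : I ⊕ T.R => lvv T gh t ∧ t ∉ Z) :=
        Finset.mem_filter.2 ⟨Finset.mem_univ _, ht, hcon⟩
      have h2 := Finset.card_pos.2 ⟨t, h1⟩
      omega
    have hZ : Z = (Finset.univ.filter fun t : I ⊕ T.R => lvv T gh t) := by
      ext t
      simp only [Finset.mem_filter, Finset.mem_univ, true_and]
      exact ⟨hl t, hfull t⟩
    have hZc : Z.card = Fintype.card I + nl T gh := by rw [hZ, TE_card]
    have hone : ((Hm T A gh).filter fun f => ∀ t ∈ Z, Sum.elim f.1 f.2 t = g t).card ≤ 1 := by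
      rw [Finset.card_le_one]
      intro f hf f' hf'
      rw [Finset.mem_filter, Hm, Finset.mem_filter] at hf hf'
      have h1 : f.1 = f'.1 := by
        funext i
        have ha := hf.2 (Sum.inl i) (hfull _ trivial)
        have hb := hf'.2 (Sum.inl i) (hfull _ trivial)
        simp only [Sum.elim_inl] at ha hb
        rw [ha, hb]
      have h2 : f.2 = f'.2 := by
        funext r
        cases hr : gh r with
        | none =>
          have ha := hf.2 (Sum.inr r) (hfull _ hr)
          have hb := hf'.2 (Sum.inr r) (hfull _ hr)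
          simp only [Sum.elim_inr] at ha hb
          rw [ha, hb]
        | some w =>
          rw [hf.1.2.2 r w hr, hf'.1.2.2 r w hr, h1]
      exact Prod.ext h1 h2
    rw [hZc]
    have h3 : (((Hm T A gh).filter fun f => ∀ t ∈ Z, Sum.elim f.1 f.2 t = g t).card : ℝ) ≤ 1 := by
      exact_mod_cast hone
    have h4 : 0 ≤ Δ ^ (Fintype.card I + nl T gh) := by positivity
    nlinarith
  | succ n ih =>
    intro Z g hne hl hn
    by_cases hex : ∃ t, lvv T gh t ∧ t ∉ Z
    · obtain ⟨t, t', htZ, ht'Z, hlt', hadj⟩ := TE_exists T gh Z hne hl hex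
      have htt : t ≠ t' := fun h => ht'Z (h ▸ htZ)
      have hcover : ((Hm T A gh).filter fun f => ∀ t ∈ Z, Sum.elim f.1 f.2 t = g t) ⊆
          (Finset.univ.filter fun v => A (g t) v).biUnion fun v =>
            (Hm T A gh).filter fun f => ∀ u ∈ insert t' Z,
              Sum.elim f.1 f.2 u = Function.update g t' v u := by
        intro f hf
        rw [Finset.mem_filter] at hf
        rw [Finset.mem_biUnion]
        refine ⟨Sum.elim f.1 f.2 t', ?_, ?_⟩
        · rw [Finset.mem_filter]
          refine ⟨Finset.mem_univ _, ?_⟩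
          rw [← hf.2 t htZ]
          have h1 := hf.1
          rw [Hm, Finset.mem_filter] at h1
          exact TE_adj_hom T A hs f.1 f.2 h1.2.1 t t' hadj
        · rw [Finset.mem_filter]
          refine ⟨hf.1, ?_⟩
          intro u hu
          rw [Finset.mem_insert] at hu
          rcases hu with rfl | hu
          · rw [Function.update_self]
          · have hne' : u ≠ t' := by
              intro h
              rw [h] at hu
              exact ht'Z hu
            rw [Function.update_of_ne hne']
            exact hf.2 u hu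
      have hc1 := (Finset.card_le_card hcover).trans Finset.card_biUnion_le
      have hins : (insert t' Z).card = Z.card + 1 := Finset.card_insert_of_notMem ht'Z
      have hstep : ∀ v, (((Hm T A gh).filter fun f => ∀ u ∈ insert t' Z,
          Sum.elim f.1 f.2 u = Function.update g t' v u).card : ℝ) * Δ ^ (Z.card + 1) ≤
            Δ ^ (Fintype.card I + nl T gh) := by
        intro v
        have h := ih (insert t' Z) (Function.update g t' v) (Finset.insert_nonempty _ _) ?_ ?_
        · rw [hins] at h
          exact h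
        · intro u hu
          rw [Finset.mem_insert] at hu
          rcases hu with rfl | hu
          · exact hlt'
          · exact hl u hu
        · have hss : (Finset.univ.filter fun t : I ⊕ T.R => lvv T gh t ∧ t ∉ insert t' Z) ⊂
              (Finset.univ.filter fun t : I ⊕ T.R => lvv T gh t ∧ t ∉ Z) := by
            rw [Finset.ssubset_iff_of_subset]
            · refine ⟨t', Finset.mem_filter.2 ⟨Finset.mem_univ _, hlt', ht'Z⟩, ?_⟩
              intro h
              exact (Finset.mem_filter.1 h).2.2 (Finset.mem_insert_self _ _)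
            · intro u hu
              rw [Finset.mem_filter] at hu ⊢
              exact ⟨hu.1, hu.2.1, fun h => hu.2.2 (Finset.mem_insert_of_mem h)⟩
          have := Finset.card_lt_card hss
          omega
      have hc2 : (((Hm T A gh).filter fun f => ∀ t ∈ Z, Sum.elim f.1 f.2 t = g t).card : ℝ) *
          Δ ^ (Z.card + 1) ≤ (deg A (g t) : ℝ) * Δ ^ (Fintype.card I + nl T gh) := by
        have h5 : (((Hm T A gh).filter fun f => ∀ t ∈ Z, Sum.elim f.1 f.2 t = g t).card : ℝ) ≤
            ∑ v ∈ Finset.univ.filter (fun v => A (g t) v),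
              (((Hm T A gh).filter fun f => ∀ u ∈ insert t' Z,
                Sum.elim f.1 f.2 u = Function.update g t' v u).card : ℝ) := by
          exact_mod_cast hc1
        have h6 : 0 ≤ Δ ^ (Z.card + 1) := by positivity
        calc _ ≤ (∑ v ∈ Finset.univ.filter (fun v => A (g t) v),
              (((Hm T A gh).filter fun f => ∀ u ∈ insert t' Z,
                Sum.elim f.1 f.2 u = Function.update g t' v u).card : ℝ)) * Δ ^ (Z.card + 1) :=
              mul_le_mul_of_nonneg_right h5 h6
          _ = ∑ v ∈ Finset.univ.filter (fun v => A (g t) v),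
              ((((Hm T A gh).filter fun f => ∀ u ∈ insert t' Z,
                Sum.elim f.1 f.2 u = Function.update g t' v u).card : ℝ) * Δ ^ (Z.card + 1)) := by
              rw [Finset.sum_mul]
          _ ≤ ∑ v ∈ Finset.univ.filter (fun v => A (g t) v), Δ ^ (Fintype.card I + nl T gh) :=
              Finset.sum_le_sum fun v _ => hstep v
          _ = _ := by
              rw [Finset.sum_const, nsmul_eq_mul]
              rfl
      have h7 : (deg A (g t) : ℝ) * Δ ^ (Fintype.card I + nl T gh) ≤
          Δ * Δ ^ (Fintype.card I + nl T gh) :=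
        mul_le_mul_of_nonneg_right (hdeg _) (by positivity)
      have h8 := hc2.trans h7
      rw [pow_succ, ← mul_assoc, mul_comm Δ] at h8
      exact le_of_mul_le_mul_right h8 hΔ
    · apply ih Z g hne hl
      have : (Finset.univ.filter fun t : I ⊕ T.R => lvv T gh t ∧ t ∉ Z) = ∅ := by
        rw [Finset.filter_eq_empty_iff]
        intro t _ ht
        exact hex ⟨t, ht⟩
      rw [this]
      simp

theorem TE : TE_stmt := by
  intro I _ T V _ A Δ gh hs hΔ hdeg Z g hne hl
  exact TE_main T A Δ gh hs hΔ hdeg _ Z g hne hl le_rfl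

end

end Pool.Agent.IV
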